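import Pool.Agent.H55.QR.Targets
import Pool.Agent.H68.PSD.EXP

/-!
# qr_modules, row EXP3: the psd bound for index vectors, a constant alphabet
-/

set_option autoImplicit false

namespace Pool.Agent.H68.QR

open Matrix Finset H43.PS Pool.Agent.H55.QR
open Pool.Agent.H68.PSD (xx_le sig_le)

theorem pf_EXP3 (h : S_PSL3) : S_EXP3 := by
  intro κ hκ
  -- the choice of `q`
  have hγ : 0 < 4 * κ / 5 := by positivity
  have hev : ∀ᶠ q : ℕ in Filter.atTop,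
      (64 * 18432) * (8 : ℝ) ^ (4 * κ / 5) ≤ (q : ℝ) ^ (4 * κ / 5) :=
    ((tendsto_rpow_atTop hγ).comp tendsto_natCast_atTop_atTop).eventually_ge_atTop _
  obtain ⟨q₀, hq₀⟩ := Filter.eventually_atTop.1 hev
  obtain ⟨q, hqd⟩ : ∃ q : ℕ, q = q₀ + 8 := ⟨_, rfl⟩
  have hq8 : (8 : ℝ) ≤ q := by
    have : 8 ≤ q := by omega
    exact_mod_cast this
  have hqr : (0 : ℝ) < q := by linarith
  obtain ⟨σ, hσd⟩ : ∃ σ : ℝ, σ = ((q : ℝ) / 8) ^ (2 / 5 : ℝ) := ⟨_, rfl⟩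
  have hτ1 : 1 ≤ (q : ℝ) / 8 := by linarith
  have hσ1 : 1 ≤ σ := by
    rw [hσd]
    exact Real.one_le_rpow hτ1 (by norm_num)
  have hσp : σ ^ (2 * (5 / 4 : ℝ)) = (5 / 4 - 1) * q / 2 := by
    rw [hσd, ← Real.rpow_mul (by linarith), show (2 / 5 : ℝ) * (2 * (5 / 4)) = 1 by norm_num,
      Real.rpow_one]
    ring
  have hσκ : 64 * 18432 ≤ σ ^ (2 * κ) := by
    have h1 := hq₀ q (by omega)
    have h2 : σ ^ (2 * κ) = (q : ℝ) ^ (4 * κ / 5) / (8 : ℝ) ^ (4 * κ / 5) := by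
      rw [hσd, ← Real.rpow_mul (by linarith), ← Real.div_rpow hqr.le (by norm_num)]
      congr 1
      ring
    rw [h2, le_div_iff₀ (Real.rpow_pos_of_pos (by norm_num) _)]
    exact h1
  refine ⟨q, by omega, fun N h' hN => ?_⟩
  intro ι _ _ A L S D v m δ h1 h2 h3 h4 h5 h6 h7 h8 h9 h10 h11 h12 h13 h14
  rcases Nat.eq_zero_or_pos N with hN0 | hN0
  · subst hN0
    have h15 : A.card ≤ 1 := by
      have := card_le_univ A
      rwa [Fintype.card_fun, Fintype.card_fin, Fintype.card_fin, pow_zero] at this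
    rw [pow_zero, pow_zero, inv_one, div_one]
    exact_mod_cast h15
  by_contra hcon
  rw [not_le] at hcon
  have H := h (ZMod 2) (5 / 4) σ (by norm_num) (by norm_num) hσ1 (by simp) N q h' (by omega)
    ι A L S D v _ m δ h1 h2 h3 h4 h5 h6 h7 h8 h9 h11 h14
  have hc : (Fintype.card (ZMod 2) : ℝ) = 2 := by
    rw [ZMod.card]
    norm_num
  rw [hc] at H
  have hX := xx_le (Q := 2) (q := (q : ℝ)) (p := 5 / 4) (σ := σ)
    (r := (Fintype.card ι : ℝ)) (m := m) (sh := 1) (N := N) (h := h') (by norm_num) hqr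
    (by norm_num) (by norm_num) (by linarith) hσp (by positivity) h9.le zero_le_one le_rfl
  rw [one_mul] at hX
  have H2 := sig_le (Q := 2) (p := 5 / 4) (by norm_num) (by linarith)
    (show (0 : ℝ) ≤ (Fintype.card ι : ℝ) by positivity) h9 h10 h12 hcon.le hX H
  -- the bound for the order
  have h16 : (Fintype.card ι : ℝ) ^ (2 - 1 / (5 / 4 : ℝ)) ≤ 4 ^ N := by
    have a1 : (Fintype.card ι : ℝ) ^ (2 - 1 / (5 / 4 : ℝ)) ≤
        ((2 : ℝ) ^ N) ^ (2 - 1 / (5 / 4 : ℝ)) :=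
      Real.rpow_le_rpow (by positivity) h13 (by norm_num)
    have a2 : ((2 : ℝ) ^ N) ^ (2 - 1 / (5 / 4 : ℝ)) ≤ ((2 : ℝ) ^ N) ^ (2 : ℝ) :=
      Real.rpow_le_rpow_of_exponent_le (one_le_pow₀ (by norm_num)) (by norm_num)
    have a3 : ((2 : ℝ) ^ N) ^ (2 : ℝ) = 4 ^ N := by
      rw [Real.rpow_two, ← pow_mul, mul_comm, pow_mul]
      norm_num
    linarith
  have h17 : (σ ^ (2 * κ)) ^ N ≤ σ ^ (2 * (h' + 1)) := by
    have a1 : (σ ^ (2 * κ)) ^ N = σ ^ (2 * κ * N) := by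
      rw [Real.rpow_mul (by linarith) (2 * κ) (N : ℝ), Real.rpow_natCast]
    have a2 : σ ^ (2 * κ * N) ≤ σ ^ ((2 * (h' + 1) : ℕ) : ℝ) := by
      refine Real.rpow_le_rpow_of_exponent_le hσ1 ?_
      push_cast
      linarith
    rw [Real.rpow_natCast] at a2
    rw [a1]
    exact a2
  have h18 : ((64 : ℝ) * 18432) ^ N ≤ (σ ^ (2 * κ)) ^ N := pow_le_pow_left₀ (by norm_num) hσκ N
  have h19 : 32 * (128 * (2 : ℝ) ^ 2 * (2 + 1) ^ 2) ^ N *
      (Fintype.card ι : ℝ) ^ (2 - 1 / (5 / 4 : ℝ)) ≤ 32 * 18432 ^ N := by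
    have a1 : (18432 : ℝ) ^ N = (128 * (2 : ℝ) ^ 2 * (2 + 1) ^ 2) ^ N * 4 ^ N := by
      rw [← mul_pow]
      norm_num
    rw [a1]
    calc 32 * (128 * (2 : ℝ) ^ 2 * (2 + 1) ^ 2) ^ N *
      (Fintype.card ι : ℝ) ^ (2 - 1 / (5 / 4 : ℝ)) ≤
        32 * (128 * (2 : ℝ) ^ 2 * (2 + 1) ^ 2) ^ N * 4 ^ N :=
          mul_le_mul_of_nonneg_left h16 (by positivity)
      _ = _ := by ring
  have h20 : ((64 : ℝ) * 18432) ^ N ≤ 32 * 18432 ^ N :=
    h18.trans (h17.trans (H2.trans h19))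
  rw [mul_pow] at h20
  have h21 : (64 : ℝ) ^ N ≤ 32 := le_of_mul_le_mul_right h20 (by positivity)
  have h22 : (64 : ℝ) ≤ 64 ^ N := le_self_pow₀ (by norm_num) (by omega)
  linarith

end Pool.Agent.H68.QR
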